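import Pool.Agent.H49.SH.Holes

/-!
# The first occurrences of the gaps
-/

set_option autoImplicit false

open MeasureTheory Filter Topology Set

namespace Pool.Agent.H49.SH

open Pool.Agent.H49.BP

/-- The number of generalised primes up to `x`. -/
noncomputable def primeCount (q : ℕ → ℝ) (x : ℝ) : ℕ := {j : ℕ | q j ≤ x}.ncard

/-- The number of generalised integers up to `x`, with multiplicity. -/
noncomputable def intCount (q : ℕ → ℝ) (x : ℝ) : ℕ := {n : ℕ | 1 ≤ n ∧ gint q n ≤ x}.ncard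

/-- The generalised primes `q` satisfy the analogues of the Riemann hypothesis and of the Lindelöf hypothesis: they increase
strictly from `q 0 > 1`; their number up to `x` is `∫_2^x du / log u + O(√x)`; the number of the generalised integers up to `x` is
`ρ x + O(x ^ (1 / 2 + ε))` for every `ε > 0`, with a `ρ > 0`; the zeta function is `s / (s - 1) * exp (G s)` for `Re s > 1`, with a function
`G` that is holomorphic in `Re s > 1 / 2` and at most `C √(log (|Im s| + 3))` for `Re s ≥ σ`, for every `σ > 1 / 2`. -/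
def RHSystem (q : ℕ → ℝ) : Prop :=
  StrictMono q ∧ 1 < q 0 ∧
    (∃ C : ℝ, ∀ x : ℝ, 2 ≤ x → |(primeCount q x : ℝ) - ∫ u in (2 : ℝ)..x, (Real.log u)⁻¹| ≤ C * √x) ∧
    (∃ ρ : ℝ, 0 < ρ ∧ ∀ ε : ℝ, 0 < ε → ∃ C : ℝ, ∀ x : ℝ, 1 ≤ x →
      |(intCount q x : ℝ) - ρ * x| ≤ C * x ^ (1 / 2 + ε)) ∧
    ∃ G : ℂ → ℂ, DifferentiableOn ℂ G {s | 1 / 2 < s.re} ∧
      (∀ s : ℂ, 1 < s.re → ∑' n : ℕ, ((gint q (n + 1) : ℝ) : ℂ) ^ (-s) = s / (s - 1) * Complex.exp (G s)) ∧
      ∀ σ : ℝ, 1 / 2 < σ → ∃ C : ℝ, ∀ s : ℂ, σ ≤ s.re → ‖G s‖ ≤ C * √(Real.log (|s.im| + 3))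

/-- The first generalised prime `q (n + 1)` with `q (n + 1) - q n ≥ g + 1`; for the primes themselves this is the first prime
that follows a run of at least `g` consecutive composite numbers. -/
noncomputable def firstAfter (q : ℕ → ℝ) (g : ℕ) : ℝ := q (sInf {n | (g : ℝ) + 1 ≤ q (n + 1) - q n} + 1)

/-- few changes of a sampled system do not matter -/
theorem rh_of {q q' : ℕ → ℝ} (hmono : StrictMono q) (hgt : ∀ j, tt j < q j) {B : ℝ} (hB : 0 ≤ B) (hF : Few q q' B)
    (hS : Samp q') : RHSystem q := by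
  have hg : ∀ j : ℕ, (j : ℝ) + 1 ≤ q j := fun j => (tt_ge j).trans (hgt j).le
  have hq0 : 1 < q 0 := by
    have := hgt 0
    rwa [tt_zero] at this
  have hD : Disc q := disc_of hmono hg hgt hB hF hS
  obtain ⟨G, hG1, hG2, hG3, ρ, hρ, hN⟩ := zeta hmono hg hq0 hD
  refine ⟨hmono, hq0, primes_of hmono hg hgt hB hF, ⟨ρ, hρ, fun ε hε => ?_⟩, G, hG1, hG2, hG3⟩
  obtain ⟨C, hC⟩ := hN ε hε
  refine ⟨C, fun x hx => ?_⟩
  have e : intCount q x = {n : ℕ | gint q (n + 1) ≤ x}.ncard := by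
    unfold intCount
    have h1 : {n : ℕ | 1 ≤ n ∧ gint q n ≤ x} = (fun n => n + 1) '' {n : ℕ | gint q (n + 1) ≤ x} := by
      ext n
      constructor
      · rintro ⟨h2, h3⟩
        refine ⟨n - 1, ?_, by simp only; omega⟩
        show gint q (n - 1 + 1) ≤ x
        rw [Nat.sub_add_cancel h2]
        exact h3
      · rintro ⟨k, hk, rfl⟩
        exact ⟨by simp only; omega, hk⟩
    rw [h1, Set.ncard_image_of_injective _ (fun a b hab => by simpa using hab)]
  rw [e]
  exact hC x hx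

variable {P : ℕ → ℝ} {g0 : ℕ}

/-- the first occurrence of the gap number `g` -/
theorem Cond.first (h : Cond P g0) {q' : ℕ → ℝ} (hq' : ∀ j, q' j ∈ Ioc (tt j) (tt (j + 1))) {g : ℕ} (hg : g0 ≤ g)
    (hbig : qq P g0 q' 1 - qq P g0 q' 0 < (g : ℝ) + 1) :
    (∃ n, (g : ℝ) + 1 ≤ qq P g0 q' (n + 1) - qq P g0 q' n) ∧
      firstAfter (qq P g0 q') g = tt (st P g) + (g + 1) := by
  have hst := h.st_two hg
  obtain ⟨n0, hn0⟩ : ∃ n0, n0 + 1 = st P g := ⟨st P g - 1, by omega⟩
  have hgap := h.gap_eq (q' := q') hq' hg hn0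
  have hmem : n0 ∈ {n | (g : ℝ) + 1 ≤ qq P g0 q' (n + 1) - qq P g0 q' n} := hgap.1.ge
  refine ⟨⟨n0, hmem⟩, ?_⟩
  have hmin : ∀ n ∈ {n | (g : ℝ) + 1 ≤ qq P g0 q' (n + 1) - qq P g0 q' n}, n0 ≤ n := by
    intro n hn
    by_contra hlt
    push Not at hlt
    have hn' : (g : ℝ) + 1 ≤ qq P g0 q' (n + 1) - qq P g0 q' n := hn
    rcases Nat.eq_zero_or_pos n with hz | hpos
    · subst hz
      rw [zero_add] at hn'
      linarith
    · by_cases hs : SS P g0 n
      · obtain ⟨g', hg', h1⟩ := hs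
        have h2 : g' < g := by
          by_contra h3
          push Not at h3
          rcases eq_or_lt_of_le h3 with h4 | h4
          · rw [h4] at hn0
            omega
          · have := h.st_mono hg h4
            have := st_lt_en (P := P) g
            omega
        have h3 := (h.gap_eq (q' := q') hq' hg' h1).1
        have h4 : (g' : ℝ) < g := by exact_mod_cast h2
        linarith
      · have h1 := h.gap_le hq' hpos hs
        have h2 : qq P g0 q' n < qq P g0 q' n0 := h.qq_mono hq' hlt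
        have h3 : qq P g0 q' n0 = tt (st P g) := by
          rw [← hn0]
          exact qq_SS q' ⟨g, hg, hn0⟩
        have h4 := h.st_near hg
        have h5 := h.log g hg
        have h6 := h.logP hg
        obtain ⟨h7, h8⟩ := h.big hg
        have h9 := h.P_ge hg
        have h10 : qq P g0 q' n ≤ 2 * P g := by linarith
        have h11 : 0 < qq P g0 q' n := by
          have := h.qq_gt hq' n
          linarith [tt_one_le n]
        have h12 := Real.log_le_log h11 h10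
        rw [Real.log_mul (by norm_num) (by linarith)] at h12
        have := Real.log_two_lt_d9
        linarith
  have hs : sInf {n | (g : ℝ) + 1 ≤ qq P g0 q' (n + 1) - qq P g0 q' n} = n0 :=
    le_antisymm (Nat.sInf_le hmem) (hmin _ (Nat.sInf_mem ⟨n0, hmem⟩))
  unfold firstAfter
  rw [hs, hgap.2]

/-- prescribed first occurrences -/
theorem prescribed (hpow : ∀ᶠ g : ℕ in atTop, (g : ℝ) ^ 4 ≤ P g) (hstep : ∀ᶠ g : ℕ in atTop, P g + 2 * g ≤ P (g + 1))
    (hlog : Tendsto (fun g : ℕ => Real.log (P g) / g) atTop (𝓝 0)) :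
    ∃ q : ℕ → ℝ, RHSystem q ∧ (∀ g : ℕ, ∃ n, (g : ℝ) + 1 ≤ q (n + 1) - q n) ∧
      ∀ᶠ g : ℕ in atTop, P g ≤ firstAfter q g ∧ firstAfter q g ≤ P g + 2 * g := by
  have hlog' : ∀ᶠ g : ℕ in atTop, 200 * Real.log (P g) ≤ g := by
    filter_upwards [hlog.eventually (gt_mem_nhds (show (0 : ℝ) < 1 / 200 by norm_num)), eventually_gt_atTop 0] with g h1 h2
    have h3 : (0 : ℝ) < g := by exact_mod_cast h2
    rw [div_lt_iff₀ h3] at h1
    linarith
  obtain ⟨g0, hg0⟩ := (((hpow.and hstep).and hlog').and (eventually_ge_atTop 10)).exists_forall_of_atTop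
  have h : Cond P g0 := ⟨(hg0 g0 le_rfl).2, fun g hg => (hg0 g hg).1.1.1, fun g hg => (hg0 g hg).1.1.2,
    fun g hg => (hg0 g hg).1.2⟩
  obtain ⟨q', hq'1, hq'2⟩ := sample
  obtain ⟨m, hm⟩ := exists_nat_gt (qq P g0 q' 1 - qq P g0 q' 0)
  refine ⟨qq P g0 q', rh_of (h.qq_mono hq'1) (h.qq_gt hq'1) (by norm_num) (h.few hq'1) hq'2, fun g => ?_, ?_⟩
  · obtain ⟨n, hn⟩ := (h.first hq'1 (g := max (max g g0) m) ((le_max_right _ _).trans (le_max_left _ _)) (by
      have : (m : ℝ) ≤ (max (max g g0) m : ℕ) := by exact_mod_cast le_max_right _ _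
      linarith)).1
    refine ⟨n, le_trans ?_ hn⟩
    have : (g : ℝ) ≤ (max (max g g0) m : ℕ) := by exact_mod_cast (le_max_left _ _).trans (le_max_left _ _)
    linarith
  · filter_upwards [eventually_ge_atTop g0, eventually_ge_atTop m] with g h1 h2
    have h3 : (m : ℝ) ≤ g := by exact_mod_cast h2
    rw [(h.first hq'1 h1 (by linarith)).2]
    have h4 := st_ge (P := P) g
    have h5 := h.st_near h1
    have h6 := h.log g h1
    have h7 := (h.big h1).2
    constructor <;> linarith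

/-- prescribed first occurrences on the logarithmic scale -/
theorem prescribed_log {κ : ℕ → ℝ} (hm : Monotone κ) (h1 : Tendsto (fun g : ℕ => κ g / Real.log g) atTop atTop)
    (h2 : Tendsto (fun g : ℕ => κ g / g) atTop (𝓝 0)) :
    ∃ q : ℕ → ℝ, RHSystem q ∧ (∀ g : ℕ, ∃ n, (g : ℝ) + 1 ≤ q (n + 1) - q n) ∧
      Tendsto (fun g : ℕ => Real.log (firstAfter q g) / κ g) atTop (𝓝 1) := by
  have hlogtop : Tendsto (fun g : ℕ => Real.log g) atTop atTop :=
    Real.tendsto_log_atTop.comp tendsto_natCast_atTop_atTop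
  have hpos : ∀ᶠ g : ℕ in atTop, 1 ≤ κ g := by
    filter_upwards [h1.eventually (eventually_ge_atTop 1), hlogtop.eventually (eventually_ge_atTop 1)] with g h3 h4
    rw [le_div_iff₀ (by linarith)] at h3
    linarith
  have hg : ∀ᶠ g : ℕ in atTop, (1 : ℝ) ≤ g := by
    filter_upwards [eventually_ge_atTop 1] with g hg
    exact_mod_cast hg
  obtain ⟨q, hq1, hq2, hq3⟩ := prescribed (P := fun g : ℕ => ((g : ℝ) + 1) ^ 5 * Real.exp (κ g)) (by
    filter_upwards [hpos, hg] with g h3 h4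
    have h5 : 1 ≤ Real.exp (κ g) := Real.one_le_exp (by linarith)
    calc (g : ℝ) ^ 4 ≤ ((g : ℝ) + 1) ^ 4 := by gcongr; linarith
      _ ≤ ((g : ℝ) + 1) ^ 5 := pow_le_pow_right₀ (by linarith) (by norm_num)
      _ ≤ ((g : ℝ) + 1) ^ 5 * Real.exp (κ g) := le_mul_of_one_le_right (by positivity) h5) (by
    filter_upwards [hpos, hg] with g h3 h4
    have h5 : 1 ≤ Real.exp (κ g) := Real.one_le_exp (by linarith)
    have h6 : Real.exp (κ g) ≤ Real.exp (κ (g + 1)) := Real.exp_le_exp.2 (hm (Nat.le_succ g))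
    push_cast
    have h7 : 2 * (g : ℝ) ≤ ((g : ℝ) + 1 + 1) ^ 5 - ((g : ℝ) + 1) ^ 5 := by
      have h8 : 0 ≤ (g : ℝ) := by linarith
      have h9 : ((g : ℝ) + 1 + 1) ^ 5 - ((g : ℝ) + 1) ^ 5 = 5 * (g + 1) ^ 4 + 10 * (g + 1) ^ 3 + 10 * (g + 1) ^ 2 + 5 * (g + 1) + 1 := by
        ring
      rw [h9]
      have : 0 ≤ ((g : ℝ) + 1) ^ 4 := by positivity
      have : 0 ≤ ((g : ℝ) + 1) ^ 3 := by positivity
      have : 0 ≤ ((g : ℝ) + 1) ^ 2 := by positivity
      linarith
    have h8 : (((g : ℝ) + 1 + 1) ^ 5 - ((g : ℝ) + 1) ^ 5) * 1 ≤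
        (((g : ℝ) + 1 + 1) ^ 5 - ((g : ℝ) + 1) ^ 5) * Real.exp (κ g) :=
      mul_le_mul_of_nonneg_left h5 (by linarith)
    have h9 : ((g : ℝ) + 1 + 1) ^ 5 * Real.exp (κ g) ≤ ((g : ℝ) + 1 + 1) ^ 5 * Real.exp (κ (g + 1)) :=
      mul_le_mul_of_nonneg_left h6 (by positivity)
    linarith) (by
    have h3 : Tendsto (fun g : ℕ => 5 * (Real.log ((g : ℝ) + 1) / g) + κ g / g) atTop (𝓝 (5 * 0 + 0)) := by
      refine (Tendsto.const_mul 5 ?_).add h2
      have h4 : Tendsto (fun x : ℝ => Real.log x / (1 * x + -1)) atTop (𝓝 0) := by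
        simpa using Real.tendsto_pow_log_div_mul_add_atTop 1 (-1) 1 one_ne_zero
      have h5 := h4.comp (tendsto_atTop_add_const_right _ (1 : ℝ) (tendsto_natCast_atTop_atTop (R := ℝ)))
      refine h5.congr fun g => ?_
      simp only [Function.comp]
      congr 1
      ring
    rw [mul_zero, add_zero] at h3
    refine h3.congr fun g => ?_
    rw [Real.log_mul (by positivity) (Real.exp_pos _).ne', Real.log_exp, Real.log_pow]
    push_cast
    ring)
  refine ⟨q, hq1, hq2, ?_⟩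
  have hlim : Tendsto (fun g : ℕ => 11 * (κ g / Real.log g)⁻¹) atTop (𝓝 (11 * 0)) :=
    h1.inv_tendsto_atTop.const_mul 11
  rw [mul_zero] at hlim
  rw [tendsto_iff_norm_sub_tendsto_zero]
  refine squeeze_zero' (Eventually.of_forall fun g => norm_nonneg _) ?_ hlim
  filter_upwards [hq3, hpos, hlogtop.eventually (eventually_ge_atTop 1), eventually_ge_atTop 2] with g h3 h4 h5 h6
  obtain ⟨h7, h8⟩ := h3
  have hg2 : (2 : ℝ) ≤ g := by exact_mod_cast h6
  have hE : 1 ≤ Real.exp (κ g) := Real.one_le_exp (by linarith)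
  have hP : 2 * (g : ℝ) ≤ ((g : ℝ) + 1) ^ 5 * Real.exp (κ g) := by
    have h9 : ((g : ℝ) + 1) ^ 2 ≤ ((g : ℝ) + 1) ^ 5 := pow_le_pow_right₀ (by linarith) (by norm_num)
    have h10 : ((g : ℝ) + 1) ^ 5 ≤ ((g : ℝ) + 1) ^ 5 * Real.exp (κ g) := le_mul_of_one_le_right (by positivity) hE
    nlinarith
  have hP0 : 0 < ((g : ℝ) + 1) ^ 5 * Real.exp (κ g) := by positivity
  have hlow := Real.log_le_log hP0 h7
  have hupp := Real.log_le_log (by linarith) (h8.trans (show _ ≤ 2 * (((g : ℝ) + 1) ^ 5 * Real.exp (κ g)) by linarith))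
  rw [Real.log_mul (by norm_num) hP0.ne'] at hupp
  rw [Real.log_mul (by positivity) (Real.exp_pos _).ne', Real.log_exp, Real.log_pow] at hlow hupp
  push_cast at hlow hupp
  have h9 : Real.log ((g : ℝ) + 1) ≤ 2 * Real.log g := by
    have h10 : (g : ℝ) + 1 ≤ (g : ℝ) ^ 2 := by nlinarith
    have := Real.log_le_log (by linarith) h10
    rw [Real.log_pow] at this
    push_cast at this
    exact this
  have h10 : 0 ≤ Real.log ((g : ℝ) + 1) := Real.log_nonneg (by linarith)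
  have h11 := Real.log_two_lt_d9
  have hk : 0 < κ g := by linarith
  have e : Real.log (firstAfter q g) / κ g - 1 = (Real.log (firstAfter q g) - κ g) / κ g := by
    field_simp
  rw [e, norm_div, Real.norm_eq_abs, Real.norm_of_nonneg hk.le, inv_div, mul_div_assoc', abs_of_nonneg (by linarith)]
  refine div_le_div_of_nonneg_right ?_ hk.le
  linarith

/-- the powers -/
theorem pow_ok {L α : ℝ} (hL : 0 < L) (hα0 : 0 < α) (hα1 : α < 1) :
    Monotone (fun g : ℕ => L * (g : ℝ) ^ α) ∧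
    Tendsto (fun g : ℕ => L * (g : ℝ) ^ α / Real.log g) atTop atTop ∧
    Tendsto (fun g : ℕ => L * (g : ℝ) ^ α / g) atTop (𝓝 0) := by
  refine ⟨fun a b hab => ?_, ?_, ?_⟩
  · have h1 : (a : ℝ) ≤ b := by exact_mod_cast hab
    exact mul_le_mul_of_nonneg_left (Real.rpow_le_rpow (Nat.cast_nonneg a) h1 hα0.le) hL.le
  · have h1 : Tendsto (fun x : ℝ => Real.log x / x ^ α) atTop (𝓝 0) := (isLittleO_log_rpow_atTop hα0).tendsto_div_nhds_zero
    have h2 : Tendsto (fun x : ℝ => Real.log x / x ^ α) atTop (𝓝[>] 0) := by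
      refine tendsto_nhdsWithin_iff.2 ⟨h1, ?_⟩
      filter_upwards [eventually_gt_atTop 1] with x hx
      exact div_pos (Real.log_pos hx) (Real.rpow_pos_of_pos (by linarith) _)
    have h3 := (h2.inv_tendsto_nhdsGT_zero).const_mul_atTop hL
    refine (h3.comp tendsto_natCast_atTop_atTop).congr fun g => ?_
    simp only [Function.comp, Pi.inv_apply]
    rw [inv_div, mul_div_assoc]
  · have h2 : Tendsto (fun x : ℝ => L * x ^ (-(1 - α))) atTop (𝓝 (L * 0)) :=
      (tendsto_rpow_neg_atTop (by linarith)).const_mul L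
    rw [mul_zero] at h2
    refine (h2.comp tendsto_natCast_atTop_atTop).congr' ?_
    filter_upwards [eventually_gt_atTop 0] with g hg
    have hg' : (0 : ℝ) < g := by exact_mod_cast hg
    simp only [Function.comp]
    rw [show -(1 - α) = α - 1 by ring, Real.rpow_sub_one hg'.ne', mul_div_assoc]

/-- every constant in Shanks' law -/
theorem shanks {L : EReal} (hL : 0 ≤ L) :
    ∃ q : ℕ → ℝ, RHSystem q ∧ (∀ g : ℕ, ∃ n, (g : ℝ) + 1 ≤ q (n + 1) - q n) ∧
      Tendsto (fun g : ℕ => ((Real.log (firstAfter q g) / √g : ℝ) : EReal)) atTop (𝓝 L) := by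
  have main : ∀ A α : ℝ, 0 < A → 0 < α → α < 1 → ∃ q : ℕ → ℝ, RHSystem q ∧
      (∀ g : ℕ, ∃ n, (g : ℝ) + 1 ≤ q (n + 1) - q n) ∧
      ∃ f : ℕ → ℝ, Tendsto f atTop (𝓝 1) ∧ ∀ᶠ g : ℕ in atTop,
        Real.log (firstAfter q g) / √g = f g * (A * (g : ℝ) ^ (α - 1 / 2)) := by
    intro A α hA h0 h1
    obtain ⟨hm, h2, h3⟩ := pow_ok hA h0 h1
    obtain ⟨q, hq1, hq2, hq3⟩ := prescribed_log hm h2 h3
    refine ⟨q, hq1, hq2, _, hq3, ?_⟩
    filter_upwards [eventually_gt_atTop 0] with g hg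
    have hg' : (0 : ℝ) < g := by exact_mod_cast hg
    rw [Real.rpow_sub hg', ← Real.sqrt_eq_rpow]
    have h4 : 0 < (g : ℝ) ^ α := Real.rpow_pos_of_pos hg' _
    have h5 : 0 < √(g : ℝ) := Real.sqrt_pos.2 hg'
    field_simp
  induction L using EReal.rec with
  | bot => simp at hL
  | top =>
    obtain ⟨q, hq1, hq2, f, hf1, hf2⟩ := main 1 (3 / 4) one_pos (by norm_num) (by norm_num)
    refine ⟨q, hq1, hq2, ?_⟩
    have h1 : Tendsto (fun g : ℕ => 1 * (g : ℝ) ^ (3 / 4 - 1 / 2 : ℝ)) atTop atTop := by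
      simp only [one_mul]
      exact (tendsto_rpow_atTop (by norm_num)).comp tendsto_natCast_atTop_atTop
    have h2 := (hf1.pos_mul_atTop one_pos h1).congr' (hf2.mono fun g hg => hg.symm)
    exact EReal.tendsto_coe_nhds_top_iff.2 h2
  | coe l =>
    have hl0 : 0 ≤ l := by exact_mod_cast hL
    rcases eq_or_lt_of_le hl0 with h0 | h0
    · subst h0
      obtain ⟨q, hq1, hq2, f, hf1, hf2⟩ := main 1 (1 / 4) one_pos (by norm_num) (by norm_num)
      refine ⟨q, hq1, hq2, ?_⟩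
      have h1 : Tendsto (fun g : ℕ => 1 * (g : ℝ) ^ (1 / 4 - 1 / 2 : ℝ)) atTop (𝓝 0) := by
        simp only [one_mul]
        have := (tendsto_rpow_neg_atTop (show (0 : ℝ) < 1 / 4 by norm_num)).comp (tendsto_natCast_atTop_atTop (R := ℝ))
        refine this.congr fun g => ?_
        simp only [Function.comp]
        norm_num
      have h2 := (hf1.mul h1).congr' (hf2.mono fun g hg => hg.symm)
      rw [one_mul] at h2
      exact EReal.tendsto_coe.2 h2
    · obtain ⟨q, hq1, hq2, f, hf1, hf2⟩ := main l (1 / 2) h0 (by norm_num) (by norm_num)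
      refine ⟨q, hq1, hq2, ?_⟩
      have h1 : Tendsto (fun g : ℕ => l * (g : ℝ) ^ (1 / 2 - 1 / 2 : ℝ)) atTop (𝓝 l) := by
        simp
      have h2 := (hf1.mul h1).congr' (hf2.mono fun g hg => hg.symm)
      rw [one_mul] at h2
      exact EReal.tendsto_coe.2 h2

end Pool.Agent.H49.SH
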