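import Pool.Agent.H49.BP.Gaps

/-!
# Systems with a dense sequence of gaps of prescribed lengths
-/

set_option autoImplicit false

open MeasureTheory Filter Topology Set

namespace Pool.Agent.H49.SH

open Pool.Agent.H49.BP

/-- the start of the gap number `g` -/
noncomputable def st (P : ℕ → ℝ) (g : ℕ) : ℕ := sInf {n | P g ≤ tt n}

/-- the end of the gap number `g` -/
noncomputable def en (P : ℕ → ℝ) (g : ℕ) : ℕ := hole (fun _ => (g : ℝ) + 1) (st P g)

/-- the conditions on the places of the gaps -/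
structure Cond (P : ℕ → ℝ) (g0 : ℕ) : Prop where
  ten : 10 ≤ g0
  pow : ∀ g, g0 ≤ g → (g : ℝ) ^ 4 ≤ P g
  step : ∀ g, g0 ≤ g → P g + 2 * g ≤ P (g + 1)
  log : ∀ g, g0 ≤ g → 200 * Real.log (P g) ≤ g

variable {P : ℕ → ℝ} {g0 : ℕ}

theorem st_ge (g : ℕ) : P g ≤ tt (st P g) := by
  refine Nat.sInf_mem (s := {n | P g ≤ tt n}) ?_
  obtain ⟨n, hn⟩ := exists_nat_ge (P g)
  exact ⟨n, by have := tt_ge n; show P g ≤ tt n; linarith⟩

theorem st_lt {g n : ℕ} (h : n < st P g) : tt n < P g := by
  have := Nat.notMem_of_lt_sInf h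
  exact not_le.1 this

theorem Cond.big (h : Cond P g0) {g : ℕ} (hg : g0 ≤ g) : 10000 ≤ P g ∧ (10 : ℝ) ≤ g := by
  have h1 := h.pow g hg
  have h2 : (10 : ℝ) ≤ g := by exact_mod_cast h.ten.trans hg
  refine ⟨?_, h2⟩
  have h3 : (10 : ℝ) ^ 4 ≤ (g : ℝ) ^ 4 := by gcongr
  norm_num at h3
  linarith

theorem Cond.st_two (h : Cond P g0) {g : ℕ} (hg : g0 ≤ g) : 2 ≤ st P g := by
  by_contra h1
  push Not at h1
  have h2 := st_ge (P := P) g
  have h3 : tt (st P g) ≤ tt 1 := tt_mono.monotone (by omega)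
  have h4 := tt_succ_sub_le (j := 1) le_rfl
  have h5 : tt 1 ≤ 100 := by
    have h6 : (1 : ℝ) = MM (tt 1) := by rw [MM_tt]; norm_num
    by_contra h7
    push Not at h7
    have h8 := le_MM_inc (a := 2) (b := 100) le_rfl (by norm_num)
    have h9 := MM_lt (a := 100) (by norm_num) h7
    have h10 : 0 ≤ MM 2 := MM_nonneg (by norm_num)
    have h11 := log_le_eighth (y := 100) (by norm_num)
    have h12 : 0 < Real.log 100 := Real.log_pos (by norm_num)
    have h13 : 1 < (100 - 2) / (2 * Real.log 100) := by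
      rw [one_lt_div (by positivity)]
      linarith
    linarith
  have := (h.big hg).1
  linarith

/-- the start is close to the prescribed place -/
theorem Cond.st_near (h : Cond P g0) {g : ℕ} (hg : g0 ≤ g) : tt (st P g) ≤ P g + 6 * Real.log (P g) := by
  have h1 := h.st_two hg
  have h2 : tt (st P g - 1) < P g := st_lt (by omega)
  have h3 := slot_le (j := st P g - 1) (by omega)
  have e : st P g - 1 + 1 = st P g := by omega
  rw [e] at h3
  have h4 := Real.log_le_log (by linarith [tt_one_le (st P g - 1)]) h2.le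
  linarith

theorem Cond.logP (h : Cond P g0) {g : ℕ} (hg : g0 ≤ g) : 1 ≤ Real.log (P g) := by
  have h1 := (h.big hg).1
  rw [Real.le_log_iff_exp_le (by linarith)]
  have := Real.exp_one_lt_d9
  linarith

theorem Cond.P_ge (h : Cond P g0) {g : ℕ} (hg : g0 ≤ g) : 1000 * (g : ℝ) ≤ P g := by
  obtain ⟨h1, h2⟩ := h.big hg
  have h3 := h.pow g hg
  have h4 : (10 : ℝ) ^ 3 ≤ (g : ℝ) ^ 3 := by gcongr
  have h5 : (g : ℝ) ^ 4 = g * (g : ℝ) ^ 3 := by ring
  nlinarith

/-- the end of the gap -/
theorem Cond.en_near (h : Cond P g0) {g : ℕ} (hg : g0 ≤ g) : tt (en P g + 2) ≤ P g + g + 1 + 150 * Real.log (P g) := by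
  have h1 := h.st_two hg
  have h2 := h.st_near hg
  have hL := h.logP hg
  obtain ⟨hP, hg10⟩ := h.big hg
  have hPg := h.P_ge hg
  have h100 := h.log g hg
  set L := Real.log (P g) with hLdef
  -- the last place before the end
  have key : ∀ n : ℕ, 1 ≤ n → tt n ≤ P g + g + 1 + 6 * L → tt (n + 3) ≤ tt n + 144 * L := by
    intro n hn hle
    have h3 : tt n ≤ 2 * P g := by linarith
    have h4 : Real.log (tt n) ≤ 2 * L := by
      have h5 := Real.log_le_log (by linarith [tt_one_le n]) h3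
      rw [Real.log_mul (by norm_num) (by linarith)] at h5
      have := Real.log_two_lt_d9
      linarith
    have h5 := slot_le hn
    have h6 := slot2_le (j := n + 1) (by omega)
    have h7 : Real.log (tt (n + 1)) ≤ 3 * L := by
      have h8 : tt (n + 1) ≤ 4 * P g := by linarith
      have h9 := Real.log_le_log (by linarith [tt_one_le (n + 1)]) h8
      rw [Real.log_mul (by norm_num) (by linarith)] at h9
      have h10 : Real.log 4 ≤ 2 := by
        have := log_le_eighth (y := 4) (by norm_num)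
        have h11 : Real.log 4 = 2 * Real.log 2 := by
          rw [show (4 : ℝ) = 2 ^ 2 by norm_num, Real.log_pow]
          norm_num
        have := Real.log_two_lt_d9
        linarith
      linarith
    have e : n + 1 + 2 = n + 3 := rfl
    rw [e] at h6
    linarith
  rcases hole_min (fun _ => (g : ℝ) + 1) (st P g) with h3 | h3
  · have e : en P g + 2 = st P g + 3 := by
      unfold en
      omega
    rw [e]
    have := key (st P g) (by omega) (by linarith)
    linarith
  · have hgt := hole_gt (fun _ => (g : ℝ) + 1) (st P g)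
    have e : en P g + 2 = (hole (fun _ => (g : ℝ) + 1) (st P g) - 1) + 3 := by
      unfold en
      omega
    rw [e]
    have := key (hole (fun _ => (g : ℝ) + 1) (st P g) - 1) (by omega) (by linarith)
    linarith

theorem Cond.sep (h : Cond P g0) {g : ℕ} (hg : g0 ≤ g) : en P g + 2 < st P (g + 1) := by
  by_contra h1
  push Not at h1
  have h2 := st_ge (P := P) (g + 1)
  have h3 : tt (st P (g + 1)) ≤ tt (en P g + 2) := tt_mono.monotone h1
  have h4 := h.en_near hg
  have h5 := h.step g hg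
  have h6 := h.log g hg
  have h7 := h.big hg
  have hL := h.logP hg
  linarith

theorem st_lt_en (g : ℕ) : st P g < en P g := hole_gt _ _

theorem en_ge (g : ℕ) : tt (st P g) + (g + 1) ≤ tt (en P g) := hole_ge (fun _ => (g : ℝ) + 1) (st P g)

theorem Cond.st_mono (h : Cond P g0) {g g' : ℕ} (hg : g0 ≤ g) (hgg : g < g') : en P g + 2 < st P g' := by
  induction g', (Nat.succ_le_of_lt hgg) using Nat.le_induction with
  | base => exact h.sep hg
  | succ m hm ih =>
    have h1 := ih (by omega)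
    have h2 := h.sep (g := m) (by omega)
    have h3 := st_lt_en (P := P) m
    omega

/-- the moved places -/
def EE (P : ℕ → ℝ) (g0 : ℕ) (j : ℕ) : Prop := ∃ g, g0 ≤ g ∧ st P g ≤ j ∧ j < en P g

/-- the places before the gaps -/
def SS (P : ℕ → ℝ) (g0 : ℕ) (j : ℕ) : Prop := ∃ g, g0 ≤ g ∧ j + 1 = st P g

theorem Cond.unique (h : Cond P g0) {j g g' : ℕ} (hg : g0 ≤ g) (hg' : g0 ≤ g') (h1 : st P g ≤ j + 1) (h2 : j < en P g + 1)
    (h1' : st P g' ≤ j + 1) (h2' : j < en P g' + 1) : g = g' := by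
  rcases lt_trichotomy g g' with h3 | h3 | h3
  · have := h.st_mono hg h3
    omega
  · exact h3
  · have := h.st_mono hg' h3
    omega

theorem Cond.SS_not_EE (h : Cond P g0) {j : ℕ} (hs : SS P g0 j) : ¬ EE P g0 j := by
  rintro ⟨g, hg, h1, h2⟩
  obtain ⟨g', hg', h3⟩ := hs
  have h4 := st_lt_en (P := P) g'
  have := h.unique hg hg' (j := j) (by omega) (by omega) (by omega) (by omega)
  subst this
  omega

theorem Cond.SS_not_EE' (h : Cond P g0) {g : ℕ} (hg : g0 ≤ g) : ¬ SS P g0 (en P g) ∧ ¬ EE P g0 (en P g) := by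
  have h0 := st_lt_en (P := P) g
  constructor
  · rintro ⟨g', hg', h3⟩
    have h4 := st_lt_en (P := P) g'
    have := h.unique hg hg' (j := en P g) (by omega) (by omega) (by omega) (by omega)
    subst this
    omega
  · rintro ⟨g', hg', h1, h2⟩
    have := h.unique hg hg' (j := en P g) (by omega) (by omega) (by omega) (by omega)
    subst this
    omega

open Classical in
/-- the system with the gaps -/
noncomputable def qq (P : ℕ → ℝ) (g0 : ℕ) (q' : ℕ → ℝ) (j : ℕ) : ℝ :=
  if SS P g0 j then tt (j + 1)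
  else if h2 : EE P g0 j then (tt (st P h2.choose) + (h2.choose + 1)) +
    ((j : ℝ) - st P h2.choose) / ((en P h2.choose : ℝ) - st P h2.choose) *
      (q' (en P h2.choose) - (tt (st P h2.choose) + (h2.choose + 1)))
  else q' j

theorem qq_SS (q' : ℕ → ℝ) {j : ℕ} (hs : SS P g0 j) : qq P g0 q' j = tt (j + 1) := by
  unfold qq
  rw [if_pos hs]

theorem Cond.qq_EE (h : Cond P g0) (q' : ℕ → ℝ) {j g : ℕ} (hg : g0 ≤ g) (h1 : st P g ≤ j) (h2 : j < en P g) :
    qq P g0 q' j = (tt (st P g) + (g + 1)) + ((j : ℝ) - st P g) / ((en P g : ℝ) - st P g) *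
      (q' (en P g) - (tt (st P g) + (g + 1))) := by
  have he : EE P g0 j := ⟨g, hg, h1, h2⟩
  have hns : ¬ SS P g0 j := fun hs => h.SS_not_EE hs he
  unfold qq
  rw [if_neg hns, dif_pos he]
  have h3 := he.choose_spec
  have h4 : he.choose = g := h.unique (j := j) h3.1 hg (by omega) (by omega) (by omega) (by omega)
  rw [h4]

theorem qq_other (q' : ℕ → ℝ) {j : ℕ} (h1 : ¬ SS P g0 j) (h2 : ¬ EE P g0 j) : qq P g0 q' j = q' j := by
  unfold qq
  rw [if_neg h1, dif_neg h2]

variable {q' : ℕ → ℝ} (hq' : ∀ j, q' j ∈ Ioc (tt j) (tt (j + 1)))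

include hq'

theorem X_pos (g : ℕ) : 0 < q' (en P g) - (tt (st P g) + (g + 1)) := by
  have h1 := (hq' (en P g)).1
  have h2 := en_ge (P := P) g
  linarith

omit hq' in
theorem frac {g j : ℕ} (h1 : st P g ≤ j) (h2 : j < en P g) : 0 ≤ ((j : ℝ) - st P g) / ((en P g : ℝ) - st P g) ∧
    ((j : ℝ) - st P g) / ((en P g : ℝ) - st P g) < 1 := by
  have h3 : (st P g : ℝ) ≤ j := by exact_mod_cast h1
  have h4 : (j : ℝ) < en P g := by exact_mod_cast h2
  refine ⟨div_nonneg (by linarith) (by linarith), ?_⟩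
  rw [div_lt_one (by linarith)]
  linarith

theorem Cond.EE_bounds (h : Cond P g0) {j g : ℕ} (hg : g0 ≤ g) (h1 : st P g ≤ j) (h2 : j < en P g) :
    tt (st P g) + (g + 1) ≤ qq P g0 q' j ∧ qq P g0 q' j < q' (en P g) := by
  have hX := X_pos hq' (P := P) g
  obtain ⟨hf1, hf2⟩ := frac h1 h2
  rw [h.qq_EE q' hg h1 h2]
  constructor
  · have := mul_nonneg hf1 hX.le
    linarith
  · have := mul_lt_mul_of_pos_right hf2 hX
    linarith

omit hq' in
theorem before_end {j g : ℕ} (h1 : st P g ≤ j) (h2 : j < en P g) : tt j < tt (st P g) + (g + 1) := by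
  have hg : (0 : ℝ) ≤ g := Nat.cast_nonneg g
  rcases hole_min (fun _ => (g : ℝ) + 1) (st P g) with h3 | h3
  · have e : j = st P g := by
      unfold en at h2
      omega
    rw [e]
    linarith
  · have h4 : tt j ≤ tt (hole (fun _ => (g : ℝ) + 1) (st P g) - 1) := by
      refine tt_mono.monotone ?_
      unfold en at h2
      omega
    exact lt_of_le_of_lt h4 h3

theorem Cond.qq_gt (h : Cond P g0) (j : ℕ) : tt j < qq P g0 q' j := by
  by_cases hs : SS P g0 j
  · rw [qq_SS q' hs]
    exact tt_mono (Nat.lt_succ_self j)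
  · by_cases he : EE P g0 j
    · obtain ⟨g, hg, h1, h2⟩ := he
      have h3 := (h.EE_bounds hq' hg h1 h2).1
      have h4 := before_end h1 h2
      linarith
    · rw [qq_other q' hs he]
      exact (hq' j).1

theorem qq_le {j : ℕ} (he : ¬ EE P g0 j) : qq P g0 q' j ≤ tt (j + 1) := by
  by_cases hs : SS P g0 j
  · rw [qq_SS q' hs]
  · rw [qq_other q' hs he]
    exact (hq' j).2

theorem Cond.EE_succ (h : Cond P g0) {j g : ℕ} (hg : g0 ≤ g) (h1 : st P g ≤ j) (h2 : j < en P g) :
    qq P g0 q' j < qq P g0 q' (j + 1) ∧ qq P g0 q' (j + 1) ≤ q' (en P g) := by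
  rcases Nat.lt_or_ge (j + 1) (en P g) with h3 | h3
  · refine ⟨?_, (h.EE_bounds hq' hg (by omega) h3).2.le⟩
    rw [h.qq_EE q' hg h1 h2, h.qq_EE q' hg (by omega) h3]
    have hX := X_pos hq' (P := P) g
    have h4 : (0 : ℝ) < (en P g : ℝ) - st P g := by
      have : (st P g : ℝ) < en P g := by exact_mod_cast st_lt_en (P := P) g
      linarith
    have h5 : ((j : ℝ) - st P g) / ((en P g : ℝ) - st P g) < (((j + 1 : ℕ) : ℝ) - st P g) / ((en P g : ℝ) - st P g) := by
      refine div_lt_div_of_pos_right ?_ h4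
      push_cast
      linarith
    have := mul_lt_mul_of_pos_right h5 hX
    linarith
  · have h4 : j + 1 = en P g := by omega
    have h5 := h.SS_not_EE' hg
    rw [h4, qq_other q' h5.1 h5.2]
    exact ⟨(h.EE_bounds hq' hg h1 h2).2, le_rfl⟩

theorem Cond.qq_mono (h : Cond P g0) : StrictMono (qq P g0 q') := by
  refine strictMono_nat_of_lt_succ fun j => ?_
  by_cases he : EE P g0 j
  · obtain ⟨g, hg, h1, h2⟩ := he
    exact (h.EE_succ hq' hg h1 h2).1
  · exact lt_of_le_of_lt (qq_le hq' he) (h.qq_gt hq' (j + 1))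

/-- the prescribed gaps -/
theorem Cond.gap_eq (h : Cond P g0) {n g : ℕ} (hg : g0 ≤ g) (hn : n + 1 = st P g) :
    qq P g0 q' (n + 1) - qq P g0 q' n = g + 1 ∧ qq P g0 q' (n + 1) = tt (st P g) + (g + 1) := by
  have h1 : qq P g0 q' n = tt (n + 1) := qq_SS q' ⟨g, hg, hn⟩
  have h2 := h.qq_EE q' hg (j := n + 1) (by omega) (by rw [hn]; exact st_lt_en g)
  have e : (((n + 1 : ℕ) : ℝ) - st P g) = 0 := by
    rw [hn]
    ring
  rw [e, zero_div, zero_mul, add_zero] at h2
  refine ⟨?_, h2⟩
  rw [h2, h1, hn]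
  ring

/-- the other gaps -/
theorem Cond.gap_le (h : Cond P g0) {n : ℕ} (hn : 1 ≤ n) (hs : ¬ SS P g0 n) :
    qq P g0 q' (n + 1) - qq P g0 q' n ≤ 24 * Real.log (qq P g0 q' n) := by
  by_cases he : EE P g0 n
  · obtain ⟨g, hg, h1, h2⟩ := he
    have h3 := (h.EE_succ hq' hg h1 h2).2
    have h4 := (h.EE_bounds hq' hg h1 h2).1
    have h5 := (hq' (en P g)).2
    have h6 := before_end (P := P) (g := g) (j := en P g - 1) (by omega) (by omega)
    have h7 := slot2_le (j := en P g - 1) (by omega)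
    have e : en P g - 1 + 2 = en P g + 1 := by omega
    rw [e] at h7
    have h8 : Real.log (tt (en P g - 1)) ≤ Real.log (qq P g0 q' n) :=
      Real.log_le_log (by linarith [tt_one_le (en P g - 1)]) (by linarith)
    linarith
  · have he' : ¬ EE P g0 (n + 1) := by
      rintro ⟨g, hg, h1, h2⟩
      rcases Nat.lt_or_ge n (st P g) with h3 | h3
      · exact hs ⟨g, hg, by omega⟩
      · exact he ⟨g, hg, h3, by omega⟩
    have h1 := qq_le hq' he'
    have h2 := h.qq_gt hq' n
    have h3 := slot2_le hn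
    have h4 : Real.log (tt n) ≤ Real.log (qq P g0 q' n) := Real.log_le_log (by linarith [tt_one_le n]) h2.le
    have e : n + 1 + 1 = n + 2 := rfl
    rw [e] at h1
    linarith

omit hq' in
theorem len_le (g : ℕ) : ((en P g : ℝ) - st P g) ≤ g + 2 := by
  have hg : (0 : ℝ) ≤ g := Nat.cast_nonneg g
  have hgt := st_lt_en (P := P) g
  rcases hole_min (fun _ => (g : ℝ) + 1) (st P g) with h3 | h3
  · have e : en P g = st P g + 1 := h3
    rw [e]
    push_cast
    linarith
  · have h4 := tt_diff_ge (i := st P g) (j := en P g - 1) (by omega)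
    have e : ((en P g - 1 : ℕ) : ℝ) = (en P g : ℝ) - 1 := by
      rw [Nat.cast_sub (by omega)]
      simp
    rw [e] at h4
    have h5 : tt (en P g - 1) < tt (st P g) + (g + 1) := h3
    linarith

theorem Cond.few (h : Cond P g0) : Few (qq P g0 q') q' 2 := by
  classical
  intro J
  have hK0 : 0 ≤ √(tt J) := Real.sqrt_nonneg _
  set K := √(√(tt J)) with hK
  have hKn : 0 ≤ K := Real.sqrt_nonneg _
  have hK2 : K ^ 2 = √(tt J) := Real.sq_sqrt hK0
  set F : Finset ℕ := (Finset.range (⌊K⌋₊ + 1)).filter (fun g => g0 ≤ g ∧ st P g ≤ J) with hF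
  have hFmem : ∀ g, g0 ≤ g → st P g ≤ J → g ∈ F := by
    intro g hg hJ
    rw [hF, Finset.mem_filter, Finset.mem_range]
    refine ⟨?_, hg, hJ⟩
    rw [Nat.lt_succ_iff]
    refine Nat.le_floor ?_
    rw [hK]
    refine Real.le_sqrt_of_sq_le (Real.le_sqrt_of_sq_le ?_)
    have h1 := h.pow g hg
    have h2 := st_ge (P := P) g
    have h3 : tt (st P g) ≤ tt J := tt_mono.monotone hJ
    calc ((g : ℝ) ^ 2) ^ 2 = (g : ℝ) ^ 4 := by ring
      _ ≤ tt J := by linarith
  refine ⟨F.biUnion fun g => Finset.Ico (st P g - 1) (en P g), fun j hj hjE => ?_, ?_⟩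
  · have h1 : ¬ SS P g0 j := by
      rintro ⟨g, hg, h2⟩
      refine hjE (Finset.mem_biUnion.2 ⟨g, hFmem g hg (by omega), ?_⟩)
      have := st_lt_en (P := P) g
      rw [Finset.mem_Ico]
      omega
    have h2 : ¬ EE P g0 j := by
      rintro ⟨g, hg, h2, h3⟩
      refine hjE (Finset.mem_biUnion.2 ⟨g, hFmem g hg (by omega), ?_⟩)
      rw [Finset.mem_Ico]
      omega
    exact ⟨qq_other q' h1 h2, qq_le hq' h2⟩
  · rcases F.eq_empty_or_nonempty with he | ⟨g1, hg1⟩
    · rw [he]
      simp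
    · have hFK : ∀ g ∈ F, (g : ℝ) ≤ K := by
        intro g hg
        rw [hF, Finset.mem_filter, Finset.mem_range, Nat.lt_succ_iff] at hg
        exact (Nat.cast_le.2 hg.1).trans (Nat.floor_le hKn)
      have hK10 : 10 ≤ K := by
        have h1 := hFK g1 hg1
        rw [hF, Finset.mem_filter] at hg1
        exact (h.big hg1.2.1).2.trans h1
      have hcard : (F.card : ℝ) ≤ K + 1 := by
        have h1 : F.card ≤ ⌊K⌋₊ + 1 := by
          have := Finset.card_filter_le (Finset.range (⌊K⌋₊ + 1)) (fun g => g0 ≤ g ∧ st P g ≤ J)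
          rwa [Finset.card_range] at this
        have h2 : ((⌊K⌋₊ : ℕ) : ℝ) ≤ K := Nat.floor_le hKn
        have h3 : (F.card : ℝ) ≤ ((⌊K⌋₊ + 1 : ℕ) : ℝ) := by exact_mod_cast h1
        push_cast at h3
        linarith
      have h1 : ((F.biUnion fun g => Finset.Ico (st P g - 1) (en P g)).card : ℝ) ≤
          ∑ g ∈ F, ((Finset.Ico (st P g - 1) (en P g)).card : ℝ) := by
        exact_mod_cast Finset.card_biUnion_le
      have h2 : ∑ g ∈ F, ((Finset.Ico (st P g - 1) (en P g)).card : ℝ) ≤ ∑ g ∈ F, (K + 3) := by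
        refine Finset.sum_le_sum fun g hg => ?_
        have h3 := hFK g hg
        rw [Nat.card_Ico]
        have h4 := len_le (P := P) g
        rw [hF, Finset.mem_filter] at hg
        have h5 := h.st_two hg.2.1
        have h6 := st_lt_en (P := P) g
        have e : ((en P g - (st P g - 1) : ℕ) : ℝ) = (en P g : ℝ) - st P g + 1 := by
          rw [Nat.cast_sub (by omega), Nat.cast_sub (by omega)]
          push_cast
          ring
        rw [e]
        linarith
      rw [Finset.sum_const, nsmul_eq_mul] at h2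
      have h3 : (F.card : ℝ) * (K + 3) ≤ (K + 1) * (K + 3) := mul_le_mul_of_nonneg_right hcard (by linarith)
      rw [← hK2]
      nlinarith

end Pool.Agent.H49.SH
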