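import Pool.Agent.H49.SH.First

/-!
# Lower and upper limits in Shanks' law
-/

set_option autoImplicit false

open MeasureTheory Filter Topology Set

namespace Pool.Agent.H49.SH

open Pool.Agent.H49.BP

theorem limsup_real {u : ℕ → ℝ} {l : ℝ} (h1 : ∀ ε : ℝ, 0 < ε → ∀ᶠ n in atTop, u n ≤ l + ε)
    (h2 : ∀ ε : ℝ, 0 < ε → ∃ᶠ n in atTop, l - ε ≤ u n) : limsup (fun n => (u n : EReal)) atTop = (l : EReal) := by
  refine le_antisymm ?_ ?_
  · refine le_of_forall_gt_imp_ge_of_dense fun a ha => ?_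
    obtain ⟨c, hc1, hc2⟩ := EReal.lt_iff_exists_real_btwn.1 ha
    have hc : l < c := EReal.coe_lt_coe_iff.1 hc1
    refine le_trans ?_ hc2.le
    refine limsup_le_of_le (by isBoundedDefault) ?_
    filter_upwards [h1 (c - l) (by linarith)] with n hn
    exact EReal.coe_le_coe_iff.2 (by linarith)
  · refine le_of_forall_lt_imp_le_of_dense fun a ha => ?_
    obtain ⟨c, hc1, hc2⟩ := EReal.lt_iff_exists_real_btwn.1 ha
    have hc : c < l := EReal.coe_lt_coe_iff.1 hc2
    refine hc1.le.trans ?_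
    refine le_limsup_of_frequently_le ?_ (by isBoundedDefault)
    refine (h2 (l - c) (by linarith)).mono fun n hn => ?_
    exact EReal.coe_le_coe_iff.2 (by linarith)

theorem limsup_top {u : ℕ → ℝ} (h2 : ∀ K : ℝ, ∃ᶠ n in atTop, K ≤ u n) :
    limsup (fun n => (u n : EReal)) atTop = ⊤ := by
  rw [EReal.eq_top_iff_forall_lt]
  intro K
  refine lt_of_lt_of_le (EReal.coe_lt_coe_iff.2 (show K < K + 1 by linarith)) ?_
  refine le_limsup_of_frequently_le ?_ (by isBoundedDefault)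
  exact (h2 (K + 1)).mono fun n hn => EReal.coe_le_coe_iff.2 hn

theorem liminf_real {u : ℕ → ℝ} {l : ℝ} (h1 : ∀ ε : ℝ, 0 < ε → ∀ᶠ n in atTop, l - ε ≤ u n)
    (h2 : ∀ ε : ℝ, 0 < ε → ∃ᶠ n in atTop, u n ≤ l + ε) : liminf (fun n => (u n : EReal)) atTop = (l : EReal) := by
  refine le_antisymm ?_ ?_
  · refine le_of_forall_gt_imp_ge_of_dense fun a ha => ?_
    obtain ⟨c, hc1, hc2⟩ := EReal.lt_iff_exists_real_btwn.1 ha
    have hc : l < c := EReal.coe_lt_coe_iff.1 hc1
    refine le_trans ?_ hc2.le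
    refine liminf_le_of_frequently_le ?_ (by isBoundedDefault)
    refine (h2 (c - l) (by linarith)).mono fun n hn => ?_
    exact EReal.coe_le_coe_iff.2 (by linarith)
  · refine le_of_forall_lt_imp_le_of_dense fun a ha => ?_
    obtain ⟨c, hc1, hc2⟩ := EReal.lt_iff_exists_real_btwn.1 ha
    have hc : c < l := EReal.coe_lt_coe_iff.1 hc2
    refine hc1.le.trans ?_
    refine le_liminf_of_le (by isBoundedDefault) ?_
    filter_upwards [h1 (l - c) (by linarith)] with n hn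
    exact EReal.coe_le_coe_iff.2 (by linarith)

/-- the last number of the form `2 ^ 2 ^ k` -/
def base (g : ℕ) : ℕ := 2 ^ 2 ^ Nat.log 2 (Nat.log 2 g)

theorem base_mono : Monotone base := by
  intro a b hab
  unfold base
  have h1 : Nat.log 2 (Nat.log 2 a) ≤ Nat.log 2 (Nat.log 2 b) := Nat.log_mono_right (Nat.log_mono_right hab)
  exact Nat.pow_le_pow_right (by norm_num) (Nat.pow_le_pow_right (by norm_num) h1)

theorem base_le {g : ℕ} (hg : 2 ≤ g) : base g ≤ g := by
  unfold base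
  have h1 : Nat.log 2 g ≠ 0 := by
    have := Nat.log_pos (b := 2) (by norm_num) hg
    omega
  have h2 : 2 ^ Nat.log 2 (Nat.log 2 g) ≤ Nat.log 2 g := Nat.pow_log_le_self 2 h1
  exact (Nat.pow_le_pow_right (by norm_num) h2).trans (Nat.pow_log_le_self 2 (by omega))

theorem base_sq {g : ℕ} (hg : 2 ≤ g) : g < 4 * base g ^ 2 := by
  unfold base
  set n := Nat.log 2 g with hn
  have h1 : n ≠ 0 := by
    have := Nat.log_pos (b := 2) (by norm_num) hg
    omega
  have h2 : n < 2 ^ (Nat.log 2 n + 1) := Nat.lt_pow_succ_log_self (by norm_num) n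
  have h3 : g < 2 ^ (n + 1) := Nat.lt_pow_succ_log_self (by norm_num) g
  have h4 : 2 ^ (n + 1) ≤ 2 ^ (2 * 2 ^ Nat.log 2 n + 2) := by
    refine Nat.pow_le_pow_right (by norm_num) ?_
    rw [pow_succ] at h2
    omega
  have e : 4 * (2 ^ 2 ^ Nat.log 2 n) ^ 2 = 2 ^ (2 * 2 ^ Nat.log 2 n + 2) := by
    rw [← pow_mul, pow_add]
    ring
  rw [e]
  omega

theorem base_at (k : ℕ) : base (2 ^ 2 ^ k) = 2 ^ 2 ^ k := by
  unfold base
  rw [Nat.log_pow (by norm_num), Nat.log_pow (by norm_num)]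

theorem base_before (k : ℕ) : base (2 ^ 2 ^ (k + 1) - 1) ≤ 2 ^ 2 ^ k := by
  unfold base
  refine Nat.pow_le_pow_right (by norm_num) (Nat.pow_le_pow_right (by norm_num) ?_)
  have h1 : Nat.log 2 (2 ^ 2 ^ (k + 1) - 1) < 2 ^ (k + 1) := by
    refine Nat.log_lt_of_lt_pow ?_ ?_
    · have : 2 ≤ 2 ^ 2 ^ (k + 1) := by
        calc 2 = 2 ^ 1 := rfl
          _ ≤ 2 ^ 2 ^ (k + 1) := Nat.pow_le_pow_right (by norm_num) Nat.one_le_two_pow
      omega
    · have : 0 < 2 ^ 2 ^ (k + 1) := by positivity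
      omega
  rcases Nat.eq_zero_or_pos (Nat.log 2 (2 ^ 2 ^ (k + 1) - 1)) with h0 | h0
  · rw [h0]
    simp
  · have h2 := Nat.log_lt_of_lt_pow (b := 2) (x := k + 1) (y := Nat.log 2 (2 ^ 2 ^ (k + 1) - 1)) (by omega) h1
    omega

/-- the oscillating function -/
noncomputable def psi (g : ℕ) : ℝ := ((base g : ℕ) : ℝ) ^ (5 / 8 : ℝ)

theorem psi_mono : Monotone psi := by
  intro a b hab
  have h1 : ((base a : ℕ) : ℝ) ≤ (base b : ℕ) := by exact_mod_cast base_mono hab
  exact Real.rpow_le_rpow (Nat.cast_nonneg _) h1 (by norm_num)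

theorem psi_le {g : ℕ} (hg : 2 ≤ g) : psi g ≤ (g : ℝ) ^ (5 / 8 : ℝ) := by
  have h1 : ((base g : ℕ) : ℝ) ≤ g := by exact_mod_cast base_le hg
  exact Real.rpow_le_rpow (Nat.cast_nonneg _) h1 (by norm_num)

theorem psi_ge {g : ℕ} (hg : 2 ≤ g) : (g : ℝ) ^ (1 / 4 : ℝ) ≤ 2 * psi g := by
  have h1 : (g : ℝ) ≤ 4 * ((base g : ℕ) : ℝ) ^ 2 := by exact_mod_cast (base_sq hg).le
  have hb : (1 : ℝ) ≤ (base g : ℕ) := by
    have : 1 ≤ base g := Nat.one_le_two_pow
    exact_mod_cast this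
  have h2 : (g : ℝ) ^ (1 / 4 : ℝ) ≤ (4 * ((base g : ℕ) : ℝ) ^ 2) ^ (1 / 4 : ℝ) :=
    Real.rpow_le_rpow (Nat.cast_nonneg _) h1 (by norm_num)
  have h3 : (4 * ((base g : ℕ) : ℝ) ^ 2) ^ (1 / 4 : ℝ) = 4 ^ (1 / 4 : ℝ) * ((base g : ℕ) : ℝ) ^ (1 / 2 : ℝ) := by
    rw [Real.mul_rpow (by norm_num) (by positivity), ← Real.rpow_natCast, ← Real.rpow_mul (by positivity)]
    norm_num
  have h4 : (4 : ℝ) ^ (1 / 4 : ℝ) ≤ 2 := by
    calc (4 : ℝ) ^ (1 / 4 : ℝ) ≤ 4 ^ (1 / 2 : ℝ) := Real.rpow_le_rpow_of_exponent_le (by norm_num) (by norm_num)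
      _ = 2 := by
        rw [← Real.sqrt_eq_rpow, show (4 : ℝ) = 2 ^ 2 by norm_num, Real.sqrt_sq (by norm_num)]
  have h5 : ((base g : ℕ) : ℝ) ^ (1 / 2 : ℝ) ≤ psi g := Real.rpow_le_rpow_of_exponent_le hb (by norm_num)
  have h6 : 0 ≤ ((base g : ℕ) : ℝ) ^ (1 / 2 : ℝ) := by positivity
  calc (g : ℝ) ^ (1 / 4 : ℝ) ≤ 4 ^ (1 / 4 : ℝ) * ((base g : ℕ) : ℝ) ^ (1 / 2 : ℝ) := h2.trans h3.le
    _ ≤ 2 * psi g := mul_le_mul h4 h5 h6 (by norm_num)

theorem two_pow_top : Tendsto (fun k : ℕ => 2 ^ 2 ^ k) atTop (atTop : Filter ℕ) :=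
  (tendsto_pow_atTop_atTop_of_one_lt (by norm_num : 1 < 2)).comp (tendsto_pow_atTop_atTop_of_one_lt (by norm_num : 1 < 2))

theorem psi_big (K : ℝ) : ∃ᶠ g : ℕ in atTop, K ≤ psi g / √g := by
  have h1 : Tendsto (fun g : ℕ => (g : ℝ) ^ (1 / 8 : ℝ)) atTop atTop :=
    (tendsto_rpow_atTop (by norm_num)).comp tendsto_natCast_atTop_atTop
  have h2 := two_pow_top.eventually (h1.eventually (eventually_ge_atTop K))
  refine two_pow_top.frequently (h2.mono fun k hk => ?_).frequently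
  have h3 : psi (2 ^ 2 ^ k) / √((2 ^ 2 ^ k : ℕ) : ℝ) = ((2 ^ 2 ^ k : ℕ) : ℝ) ^ (1 / 8 : ℝ) := by
    unfold psi
    rw [base_at, Real.sqrt_eq_rpow, ← Real.rpow_sub (by positivity)]
    norm_num
  rw [h3]
  exact hk

theorem psi_small {ε : ℝ} (hε : 0 < ε) : ∃ᶠ g : ℕ in atTop, psi g / √g ≤ ε := by
  have h1 : Tendsto (fun g : ℕ => 2 * (g : ℝ) ^ (-(3 / 8) : ℝ)) atTop (𝓝 (2 * 0)) :=
    ((tendsto_rpow_neg_atTop (by norm_num)).comp tendsto_natCast_atTop_atTop).const_mul 2
  rw [mul_zero] at h1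
  have h2 := two_pow_top.eventually (h1.eventually (gt_mem_nhds hε))
  have h3 : Tendsto (fun k : ℕ => 2 ^ 2 ^ (k + 1) - 1) atTop (atTop : Filter ℕ) :=
    (tendsto_sub_atTop_nat 1).comp (two_pow_top.comp (tendsto_add_atTop_nat 1))
  refine h3.frequently (h2.mono fun k hk => ?_).frequently
  refine le_trans ?_ hk.le
  set N := 2 ^ 2 ^ k with hN
  have hN1 : 2 ≤ N := by
    calc 2 = 2 ^ 1 := rfl
      _ ≤ 2 ^ 2 ^ k := Nat.pow_le_pow_right (by norm_num) Nat.one_le_two_pow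
  have e : 2 ^ 2 ^ (k + 1) = N ^ 2 := by
    rw [hN, ← pow_mul, pow_succ]
  have hb := base_before k
  rw [← hN] at hb
  rw [e] at hb ⊢
  have hNr : (2 : ℝ) ≤ N := by exact_mod_cast hN1
  have hN0 : (0 : ℝ) < N := by linarith
  have h4 : psi (N ^ 2 - 1) ≤ (N : ℝ) ^ (5 / 8 : ℝ) := by
    have : ((base (N ^ 2 - 1) : ℕ) : ℝ) ≤ N := by exact_mod_cast hb
    exact Real.rpow_le_rpow (Nat.cast_nonneg _) this (by norm_num)
  have h5 : (N : ℝ) / 2 ≤ √((N ^ 2 - 1 : ℕ) : ℝ) := by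
    refine Real.le_sqrt_of_sq_le ?_
    rw [Nat.cast_sub (by nlinarith)]
    push_cast
    nlinarith
  have h6 : (N : ℝ) ^ (5 / 8 : ℝ) = N * (N : ℝ) ^ (-(3 / 8) : ℝ) := by
    nth_rewrite 2 [← Real.rpow_one (N : ℝ)]
    rw [← Real.rpow_add hN0]
    norm_num
  calc psi (N ^ 2 - 1) / √((N ^ 2 - 1 : ℕ) : ℝ) ≤ (N : ℝ) ^ (5 / 8 : ℝ) / ((N : ℝ) / 2) :=
        div_le_div₀ (by positivity) h4 (by positivity) h5
    _ = 2 * (N : ℝ) ^ (-(3 / 8) : ℝ) := by
        rw [h6]
        field_simp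

/-- the lower and the upper limit -/
theorem shanks_pair {a b : EReal} (ha : 0 ≤ a) (hab : a ≤ b) :
    ∃ q : ℕ → ℝ, RHSystem q ∧ (∀ g : ℕ, ∃ n, (g : ℝ) + 1 ≤ q (n + 1) - q n) ∧
      liminf (fun g : ℕ => ((Real.log (firstAfter q g) / √g : ℝ) : EReal)) atTop = a ∧
      limsup (fun g : ℕ => ((Real.log (firstAfter q g) / √g : ℝ) : EReal)) atTop = b := by
  rcases eq_or_lt_of_le hab with heq | hlt
  · obtain ⟨q, hq1, hq2, hq3⟩ := shanks ha
    exact ⟨q, hq1, hq2, hq3.liminf_eq, heq ▸ hq3.limsup_eq⟩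
  obtain ⟨a', rfl⟩ : ∃ a' : ℝ, a = (a' : EReal) := by
    lift a to ℝ using ⟨ne_top_of_lt hlt, fun h => by rw [h] at ha; simp at ha⟩
    exact ⟨a, rfl⟩
  have ha' : 0 ≤ a' := by exact_mod_cast ha
  -- the general case
  have core : ∀ κ : ℕ → ℝ, Monotone κ → (∀ᶠ g : ℕ in atTop, κ g ≤ a' * √g + psi g) →
      (∃ c : ℝ, 0 < c ∧ ∀ᶠ g : ℕ in atTop, c * (g : ℝ) ^ (1 / 4 : ℝ) ≤ κ g) → (∀ᶠ g : ℕ in atTop, a' * √g ≤ κ g) →
      ∃ q : ℕ → ℝ, RHSystem q ∧ (∀ g : ℕ, ∃ n, (g : ℝ) + 1 ≤ q (n + 1) - q n) ∧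
      liminf (fun g : ℕ => ((Real.log (firstAfter q g) / √g : ℝ) : EReal)) atTop = (a' : EReal) ∧
      ∃ f : ℕ → ℝ, Tendsto f atTop (𝓝 1) ∧ ∀ᶠ g : ℕ in atTop, Real.log (firstAfter q g) / √g = f g * (κ g / √g) := by
    intro κ hm hup hlow hge
    obtain ⟨c, hc, hclow⟩ := hlow
    have h1 : Tendsto (fun g : ℕ => κ g / Real.log g) atTop atTop := by
      refine tendsto_atTop_mono' _ ?_ (pow_ok (L := c) (α := 1 / 4) hc (by norm_num) (by norm_num)).2.1
      filter_upwards [hclow, eventually_ge_atTop 1] with g h2 h3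
      have : (1 : ℝ) ≤ g := by exact_mod_cast h3
      exact div_le_div_of_nonneg_right h2 (Real.log_nonneg this)
    have h2 : Tendsto (fun g : ℕ => κ g / g) atTop (𝓝 0) := by
      have h3 : Tendsto (fun g : ℕ => (a' + 1) * (g : ℝ) ^ (5 / 8 : ℝ) / g) atTop (𝓝 0) :=
        (pow_ok (L := a' + 1) (α := 5 / 8) (by linarith) (by norm_num) (by norm_num)).2.2
      refine squeeze_zero' ?_ ?_ h3
      · filter_upwards [hge] with g h4
        have : 0 ≤ κ g := le_trans (by positivity) h4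
        positivity
      · filter_upwards [hup, eventually_ge_atTop 2] with g h4 h5
        have h6 : (2 : ℝ) ≤ g := by exact_mod_cast h5
        refine div_le_div_of_nonneg_right (h4.trans ?_) (by linarith)
        have h7 := psi_le h5
        have h8 : √(g : ℝ) ≤ (g : ℝ) ^ (5 / 8 : ℝ) := by
          rw [Real.sqrt_eq_rpow]
          exact Real.rpow_le_rpow_of_exponent_le (by linarith) (by norm_num)
        have := mul_le_mul_of_nonneg_left h8 ha'
        linarith
    obtain ⟨q, hq1, hq2, hq3⟩ := prescribed_log hm h1 h2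
    have hid : ∀ᶠ g : ℕ in atTop, Real.log (firstAfter q g) / √g = (Real.log (firstAfter q g) / κ g) * (κ g / √g) := by
      filter_upwards [hclow, eventually_gt_atTop 0] with g h3 h4
      have h5 : (0 : ℝ) < g := by exact_mod_cast h4
      have h6 : 0 < κ g := lt_of_lt_of_le (by positivity) h3
      have h7 : 0 < √(g : ℝ) := Real.sqrt_pos.2 h5
      field_simp
    refine ⟨q, hq1, hq2, ?_, _, hq3, hid⟩
    refine liminf_real (fun ε hε => ?_) (fun ε hε => ?_)
    · have h3 : Tendsto (fun g : ℕ => (Real.log (firstAfter q g) / κ g) * a') atTop (𝓝 (1 * a')) := hq3.mul_const a'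
      rw [one_mul] at h3
      filter_upwards [hid, h3.eventually (lt_mem_nhds (show a' - ε < a' by linarith)), hge, eventually_gt_atTop 0,
        hq3.eventually (lt_mem_nhds (show (0 : ℝ) < 1 by norm_num))] with g h4 h5 h6 h7 h8
      have h9 : (0 : ℝ) < g := by exact_mod_cast h7
      have h10 : 0 < √(g : ℝ) := Real.sqrt_pos.2 h9
      have h11 : a' ≤ κ g / √g := by
        rw [le_div_iff₀ h10]
        exact h6
      rw [h4]
      exact h5.le.trans (mul_le_mul_of_nonneg_left h11 h8.le)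
    · have h3 : Tendsto (fun g : ℕ => (Real.log (firstAfter q g) / κ g) * (a' + ε / 2)) atTop (𝓝 (1 * (a' + ε / 2))) :=
        hq3.mul_const _
      rw [one_mul] at h3
      refine ((psi_small (show 0 < ε / 2 by linarith)).and_eventually (hid.and ((h3.eventually
        (gt_mem_nhds (show a' + ε / 2 < a' + ε by linarith))).and (hup.and ((eventually_gt_atTop 0).and
        (hq3.eventually (lt_mem_nhds (show (0 : ℝ) < 1 by norm_num)))))))).mono fun g hg => ?_
      obtain ⟨h4, h5, h6, h7, h8, h9⟩ := hg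
      have h10 : (0 : ℝ) < g := by exact_mod_cast h8
      have h11 : 0 < √(g : ℝ) := Real.sqrt_pos.2 h10
      have h12 : κ g / √g ≤ a' + ε / 2 := by
        have h13 : κ g / √g ≤ (a' * √g + psi g) / √g := div_le_div_of_nonneg_right h7 h11.le
        have e : (a' * √g + psi g) / √g = a' + psi g / √g := by
          field_simp
        linarith
      rw [h5]
      exact (mul_le_mul_of_nonneg_left h12 h9.le).trans h6.le
  induction b using EReal.rec with
  | bot => simp at hlt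
  | top =>
    obtain ⟨q, hq1, hq2, hq3, f, hf1, hf2⟩ := core (fun g => max (a' * √g) (psi g)) (by
        intro x y hxy
        have h1 : √(x : ℝ) ≤ √(y : ℝ) := Real.sqrt_le_sqrt (by exact_mod_cast hxy)
        exact max_le_max (mul_le_mul_of_nonneg_left h1 ha') (psi_mono hxy)) (by
        filter_upwards with g
        have h1 : 0 ≤ a' * √g := by positivity
        have h2 : 0 ≤ psi g := by unfold psi; positivity
        exact max_le (by linarith) (by linarith)) ⟨1 / 2, by norm_num, by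
        filter_upwards [eventually_ge_atTop 2] with g hg
        have := psi_ge hg
        exact le_trans (by linarith) (le_max_right _ _)⟩ (by
        filter_upwards with g
        exact le_max_left _ _)
    refine ⟨q, hq1, hq2, hq3, limsup_top fun K => ?_⟩
    refine ((psi_big (2 * |K|)).and_eventually (hf2.and (hf1.eventually
      (lt_mem_nhds (show (1 / 2 : ℝ) < 1 by norm_num))))).mono fun g hg => ?_
    obtain ⟨h1, h2, h3⟩ := hg
    rw [h2]
    have h4 : psi g / √g ≤ max (a' * √g) (psi g) / √g :=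
      div_le_div_of_nonneg_right (le_max_right _ _) (Real.sqrt_nonneg _)
    have h5 := le_abs_self K
    have h6 := abs_nonneg K
    have h7 : 2 * |K| ≤ max (a' * √g) (psi g) / √g := h1.trans h4
    nlinarith
  | coe b' =>
    have hb' : a' < b' := EReal.coe_lt_coe_iff.1 hlt
    have hb0 : 0 < b' := by linarith
    obtain ⟨q, hq1, hq2, hq3, f, hf1, hf2⟩ := core (fun g => max (a' * √g) (min (b' * √g) (psi g))) (by
        intro x y hxy
        have h1 : √(x : ℝ) ≤ √(y : ℝ) := Real.sqrt_le_sqrt (by exact_mod_cast hxy)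
        exact max_le_max (mul_le_mul_of_nonneg_left h1 ha') (min_le_min (mul_le_mul_of_nonneg_left h1 hb0.le)
          (psi_mono hxy))) (by
        filter_upwards with g
        have h1 : 0 ≤ a' * √g := by positivity
        have h2 : 0 ≤ psi g := by unfold psi; positivity
        exact max_le (by linarith) ((min_le_right _ _).trans (by linarith))) ⟨min b' (1 / 2), by positivity, by
        filter_upwards [eventually_ge_atTop 2] with g hg
        have hg2 : (2 : ℝ) ≤ g := by exact_mod_cast hg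
        have h1 := psi_ge hg
        have h2 : (g : ℝ) ^ (1 / 4 : ℝ) ≤ √g := by
          rw [Real.sqrt_eq_rpow]
          exact Real.rpow_le_rpow_of_exponent_le (by linarith) (by norm_num)
        have h3 : 0 ≤ (g : ℝ) ^ (1 / 4 : ℝ) := by positivity
        refine le_trans (le_min ?_ ?_) (le_max_right _ _)
        · calc min b' (1 / 2) * (g : ℝ) ^ (1 / 4 : ℝ) ≤ b' * (g : ℝ) ^ (1 / 4 : ℝ) :=
                mul_le_mul_of_nonneg_right (min_le_left _ _) h3
            _ ≤ b' * √g := mul_le_mul_of_nonneg_left h2 hb0.le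
        · calc min b' (1 / 2) * (g : ℝ) ^ (1 / 4 : ℝ) ≤ 1 / 2 * (g : ℝ) ^ (1 / 4 : ℝ) :=
                mul_le_mul_of_nonneg_right (min_le_right _ _) h3
            _ ≤ psi g := by linarith⟩ (by
        filter_upwards with g
        exact le_max_left _ _)
    refine ⟨q, hq1, hq2, hq3, limsup_real (fun ε hε => ?_) (fun ε hε => ?_)⟩
    · have h3 : Tendsto (fun g : ℕ => f g * b') atTop (𝓝 (1 * b')) := hf1.mul_const _
      rw [one_mul] at h3
      filter_upwards [hf2, h3.eventually (gt_mem_nhds (show b' < b' + ε by linarith)), eventually_gt_atTop 0,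
        hf1.eventually (lt_mem_nhds (show (0 : ℝ) < 1 by norm_num))] with g h4 h5 h6 h7
      have h8 : (0 : ℝ) < g := by exact_mod_cast h6
      have h9 : 0 < √(g : ℝ) := Real.sqrt_pos.2 h8
      have h10 : max (a' * √g) (min (b' * √g) (psi g)) / √g ≤ b' := by
        rw [div_le_iff₀ h9]
        exact max_le (mul_le_mul_of_nonneg_right hb'.le h9.le) (min_le_left _ _)
      rw [h4]
      exact (mul_le_mul_of_nonneg_left h10 h7.le).trans h5.le
    · have h3 : Tendsto (fun g : ℕ => f g * b') atTop (𝓝 (1 * b')) := hf1.mul_const _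
      rw [one_mul] at h3
      refine ((psi_big b').and_eventually (hf2.and ((h3.eventually (lt_mem_nhds (show b' - ε < b' by linarith))).and
        ((eventually_gt_atTop 0).and (hf1.eventually (lt_mem_nhds (show (0 : ℝ) < 1 by norm_num))))))).mono fun g hg => ?_
      obtain ⟨h4, h5, h6, h7, h8⟩ := hg
      have h9 : (0 : ℝ) < g := by exact_mod_cast h7
      have h10 : 0 < √(g : ℝ) := Real.sqrt_pos.2 h9
      rw [le_div_iff₀ h10] at h4
      have h11 : b' ≤ max (a' * √g) (min (b' * √g) (psi g)) / √g := by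
        rw [le_div_iff₀ h10]
        exact le_trans (le_min le_rfl h4) (le_max_right _ _)
      rw [h5]
      exact h6.le.trans (mul_le_mul_of_nonneg_left h11 h8.le)

end Pool.Agent.H49.SH
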